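import Pool.Agent.Helper60.PlzA.Goals

/-!
Packet SAMP for MP_8e7d5e_co (derandomized sampling).
-/

set_option autoImplicit false

namespace Pool.Agent.Helper90.PlzA

open Finset Pool.Agent.Helper60.PlzA

open scoped Classical

variable {V : Type} [Fintype V]

/-- The potential of a weight. -/
noncomputable def phi (G : SimpleGraph V) (s : ℕ) (p : V → ℝ) : ℝ :=
  2 * s * ∑ v, p v - ∑ v, ∑ w ∈ nbs G v, p v * p w

theorem upd (p : V → ℝ) (v a : V) (x : ℝ) : Function.update p v x a =
    (1 - x) * Function.update p v 0 a + x * Function.update p v 1 a := by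
  by_cases h : a = v
  · subst h
    simp
  · simp only [Function.update_of_ne h]
    ring

theorem upd2 (p : V → ℝ) (v a b : V) (hab : a ≠ b) (x : ℝ) :
    Function.update p v x a * Function.update p v x b =
    (1 - x) * (Function.update p v 0 a * Function.update p v 0 b) +
      x * (Function.update p v 1 a * Function.update p v 1 b) := by
  by_cases h : a = v
  · subst h
    simp only [Function.update_of_ne (Ne.symm hab), Function.update_self]
    ring
  · by_cases h' : b = v
    · subst h'
      simp only [Function.update_of_ne h, Function.update_self]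
      ring
    · simp only [Function.update_of_ne h, Function.update_of_ne h']
      ring

theorem phi_upd (G : SimpleGraph V) (s : ℕ) (p : V → ℝ) (v : V) (x : ℝ) :
    phi G s (Function.update p v x) =
      (1 - x) * phi G s (Function.update p v 0) + x * phi G s (Function.update p v 1) := by
  have h1 : ∑ a, Function.update p v x a =
      (1 - x) * ∑ a, Function.update p v 0 a + x * ∑ a, Function.update p v 1 a := by
    rw [Finset.mul_sum, Finset.mul_sum, ← Finset.sum_add_distrib]
    exact Finset.sum_congr rfl fun a _ => upd p v a x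
  have h2 : ∑ a, ∑ b ∈ nbs G a, Function.update p v x a * Function.update p v x b =
      (1 - x) * ∑ a, ∑ b ∈ nbs G a, Function.update p v 0 a * Function.update p v 0 b +
      x * ∑ a, ∑ b ∈ nbs G a, Function.update p v 1 a * Function.update p v 1 b := by
    rw [Finset.mul_sum, Finset.mul_sum, ← Finset.sum_add_distrib]
    refine Finset.sum_congr rfl fun a _ => ?_
    rw [Finset.mul_sum, Finset.mul_sum, ← Finset.sum_add_distrib]
    refine Finset.sum_congr rfl fun b hb => ?_
    have hb' : G.Adj a b := (Finset.mem_filter.1 hb).2
    exact upd2 p v a b hb'.ne x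
  unfold phi
  rw [h1, h2]
  ring

theorem step (G : SimpleGraph V) (s : ℕ) (p : V → ℝ) (h0 : ∀ v, 0 ≤ p v) (h1 : ∀ v, p v ≤ 1)
    (T : Finset V) : ∃ q : V → ℝ, (∀ v ∈ T, q v = 0 ∨ q v = 1) ∧ (∀ v, v ∉ T → q v = p v) ∧
      (∀ v, q v ≠ 0 → p v ≠ 0) ∧ phi G s p ≤ phi G s q := by
  induction T using Finset.induction_on with
  | empty => exact ⟨p, by simp, by simp, fun v h => h, le_rfl⟩
  | insert v T hv ih =>
    obtain ⟨q, hq1, hq2, hq3, hq4⟩ := ih
    by_cases hp : p v = 0
    · refine ⟨q, fun w hw => ?_, fun w hw => hq2 w fun h => hw (Finset.mem_insert_of_mem h), hq3, hq4⟩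
      rcases Finset.mem_insert.1 hw with h | h
      · subst h
        exact Or.inl (by rw [hq2 w hv, hp])
      · exact hq1 w h
    · have hx := phi_upd G s q v (p v)
      have hqv : Function.update q v (p v) = q := by
        rw [← hq2 v hv]
        exact Function.update_eq_self v q
      rw [hqv] at hx
      have key : ∀ y : ℝ, (y = 0 ∨ y = 1) → phi G s q ≤ phi G s (Function.update q v y) →
          ∃ q : V → ℝ, (∀ w ∈ insert v T, q w = 0 ∨ q w = 1) ∧ (∀ w, w ∉ insert v T → q w = p w) ∧
          (∀ w, q w ≠ 0 → p w ≠ 0) ∧ phi G s p ≤ phi G s q := fun y hy hle => by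
        refine ⟨Function.update q v y, fun w hw => ?_, fun w hw => ?_, fun w hw => ?_, hq4.trans hle⟩
        · by_cases h : w = v
          · subst h
            rw [Function.update_self]
            exact hy
          · rw [Function.update_of_ne h]
            exact hq1 w ((Finset.mem_insert.1 hw).resolve_left h)
        · have h : w ≠ v := fun h => hw (by rw [h]; exact Finset.mem_insert_self _ _)
          rw [Function.update_of_ne h]
          exact hq2 w fun h' => hw (Finset.mem_insert_of_mem h')
        · by_cases h : w = v
          · rw [h]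
            exact hp
          · rw [Function.update_of_ne h] at hw
            exact hq3 w hw
      by_cases hc : phi G s (Function.update q v 0) ≤ phi G s (Function.update q v 1)
      · refine key 1 (Or.inr rfl) ?_
        nlinarith [h0 v, h1 v]
      · refine key 0 (Or.inl rfl) ?_
        push Not at hc
        nlinarith [h0 v, h1 v]

theorem samp : S_SAMP := by
  intro V _ G s p h0 h1
  obtain ⟨q, hq1, -, hq3, hq4⟩ := step G s p h0 h1 univ
  let Z : Finset V := univ.filter fun v => q v = 1
  have hq : ∀ v, q v = if v ∈ Z then 1 else 0 := fun v => by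
    rcases hq1 v (Finset.mem_univ v) with h | h
    · have : v ∉ Z := fun h' => by
        have := (Finset.mem_filter.1 h').2
        rw [h] at this
        exact zero_ne_one this
      rw [if_neg this, h]
    · have : v ∈ Z := Finset.mem_filter.2 ⟨Finset.mem_univ v, h⟩
      rw [if_pos this, h]
  refine ⟨Z, fun v hv => hq3 v ?_, ?_⟩
  · rw [hq, if_pos hv]
    exact one_ne_zero
  · refine hq4.trans (le_of_eq ?_)
    unfold phi UU e2 eb
    have e1 : ∑ v, q v = (Z.card : ℝ) := by
      simp only [hq, Finset.sum_ite_mem, Finset.univ_inter, Finset.sum_const, nsmul_eq_mul, mul_one]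
    have e2' : ∑ v, ∑ w ∈ nbs G v, q v * q w =
        ((((Z ×ˢ Z).filter fun p => G.Adj p.1 p.2).card : ℕ) : ℝ) := by
      rw [Finset.card_filter, Nat.cast_sum, Finset.sum_product]
      have : ∀ v, ∑ w ∈ nbs G v, q v * q w =
          if v ∈ Z then ∑ w ∈ Z, ((if G.Adj v w then 1 else 0 : ℕ) : ℝ) else 0 := fun v => by
        by_cases hv : v ∈ Z
        · have h3 : ∑ w ∈ Z, ((if G.Adj v w then 1 else 0 : ℕ) : ℝ) =
              ∑ w, if w ∈ Z then ((if G.Adj v w then 1 else 0 : ℕ) : ℝ) else 0 := by
            rw [Finset.sum_ite_mem, Finset.univ_inter]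
          rw [if_pos hv, h3, nbs, Finset.sum_filter]
          refine Finset.sum_congr rfl fun w _ => ?_
          rw [hq v, hq w, if_pos hv]
          by_cases h4 : G.Adj v w
          · simp [h4]
          · simp [h4]
        · rw [if_neg hv, hq v, if_neg hv]
          simp only [zero_mul, Finset.sum_const_zero]
      rw [Finset.sum_congr rfl fun v _ => this v, Finset.sum_ite_mem, Finset.univ_inter]
    rw [e1, e2']

end Pool.Agent.Helper90.PlzA
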